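import Pool.Agent.helper10.OM.SpecG

/-!
# Row om:GAR: two resonant ratio classes force `MH H * α` to be near to an integer
-/

set_option autoImplicit false

namespace Pool.Agent.OM

open Finset Real Pool.Agent.AT Pool.Agent.helper85.FC

theorem GAR : GAR_stmt := by
  intro H a₁ b₁ a₂ b₂ ha₁ hb₁ ha₂ hb₂ hne α β ρ hρ h1 h2
  obtain ⟨n₁, h1⟩ := h1
  obtain ⟨n₂, h2⟩ := h2
  set N : ℤ := (a₁ : ℤ) * b₂ - a₂ * b₁ with hN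
  have hN0 : N ≠ 0 := by
    intro h
    apply hne
    have h' : (a₁ : ℤ) * b₂ = a₂ * b₁ := by linarith [hN, h]
    exact_mod_cast h'
  have hNabs : N.natAbs ≤ H ^ 2 := by
    have e1 : (a₁ : ℤ) * b₂ ≤ (H : ℤ) ^ 2 := by
      have : a₁ * b₂ ≤ H ^ 2 := by rw [pow_two]; exact Nat.mul_le_mul ha₁ hb₂
      exact_mod_cast this
    have e2 : (a₂ : ℤ) * b₁ ≤ (H : ℤ) ^ 2 := by
      have : a₂ * b₁ ≤ H ^ 2 := by rw [pow_two]; exact Nat.mul_le_mul ha₂ hb₁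
      exact_mod_cast this
    have e3 : (0 : ℤ) ≤ (a₁ : ℤ) * b₂ := by positivity
    have e4 : (0 : ℤ) ≤ (a₂ : ℤ) * b₁ := by positivity
    have e5 : |N| ≤ (H : ℤ) ^ 2 := by
      rw [abs_le]
      constructor <;> rw [hN] <;> linarith
    have e6 : (N.natAbs : ℤ) ≤ ((H ^ 2 : ℕ) : ℤ) := by
      rw [Int.natCast_natAbs]
      push_cast
      exact e5
    exact_mod_cast e6
  have hdvd : N ∣ (MH H : ℤ) := by
    rw [← Int.natAbs_dvd_natAbs, Int.natAbs_natCast]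
    exact Nat.dvd_factorial (Int.natAbs_pos.2 hN0) hNabs
  obtain ⟨k, hk⟩ := hdvd
  have hkR : (MH H : ℝ) = (N : ℝ) * (k : ℝ) := by exact_mod_cast congrArg (fun t : ℤ => (t : ℝ)) hk
  have hkabs : |(k : ℝ)| ≤ MH H := by
    have hN1 : (1 : ℝ) ≤ |(N : ℝ)| := by
      have : (1 : ℤ) ≤ |N| := Int.one_le_abs hN0
      exact_mod_cast this
    have hM : (0 : ℝ) ≤ (MH H : ℝ) := Nat.cast_nonneg _
    calc |(k : ℝ)| = 1 * |(k : ℝ)| := (one_mul _).symm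
      _ ≤ |(N : ℝ)| * |(k : ℝ)| := mul_le_mul_of_nonneg_right hN1 (abs_nonneg _)
      _ = |(MH H : ℝ)| := by rw [← abs_mul, hkR]
      _ = MH H := abs_of_nonneg hM
  have hNR : (N : ℝ) = (a₁ : ℝ) * b₂ - a₂ * b₁ := by rw [hN]; push_cast; ring
  have hmain : |(N : ℝ) * α - ((b₂ : ℝ) * n₁ - b₁ * n₂)| ≤ 2 * H * ρ := by
    have e : (N : ℝ) * α - ((b₂ : ℝ) * n₁ - b₁ * n₂) =
        (b₂ : ℝ) * ((a₁ : ℝ) * α + b₁ * β - n₁) - (b₁ : ℝ) * ((a₂ : ℝ) * α + b₂ * β - n₂) := by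
      rw [hNR]; ring
    rw [e]
    have hb₂' : (b₂ : ℝ) ≤ H := by exact_mod_cast hb₂
    have hb₁' : (b₁ : ℝ) ≤ H := by exact_mod_cast hb₁
    have t1 : |(b₂ : ℝ) * ((a₁ : ℝ) * α + b₁ * β - n₁)| ≤ H * ρ := by
      rw [abs_mul, abs_of_nonneg (Nat.cast_nonneg b₂ : (0 : ℝ) ≤ b₂)]
      exact mul_le_mul hb₂' h1 (abs_nonneg _) (Nat.cast_nonneg _)
    have t2 : |(b₁ : ℝ) * ((a₂ : ℝ) * α + b₂ * β - n₂)| ≤ H * ρ := by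
      rw [abs_mul, abs_of_nonneg (Nat.cast_nonneg b₁ : (0 : ℝ) ≤ b₁)]
      exact mul_le_mul hb₁' h2 (abs_nonneg _) (Nat.cast_nonneg _)
    calc |(b₂ : ℝ) * ((a₁ : ℝ) * α + b₁ * β - n₁) - (b₁ : ℝ) * ((a₂ : ℝ) * α + b₂ * β - n₂)|
        ≤ |(b₂ : ℝ) * ((a₁ : ℝ) * α + b₁ * β - n₁)| + |(b₁ : ℝ) * ((a₂ : ℝ) * α + b₂ * β - n₂)| :=
          abs_sub _ _
      _ ≤ H * ρ + H * ρ := add_le_add t1 t2
      _ = 2 * H * ρ := by ring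
  refine ⟨k * ((b₂ : ℤ) * n₁ - b₁ * n₂), ?_⟩
  have e : (MH H : ℝ) * α - ((k * ((b₂ : ℤ) * n₁ - b₁ * n₂) : ℤ) : ℝ) =
      (k : ℝ) * ((N : ℝ) * α - ((b₂ : ℝ) * n₁ - b₁ * n₂)) := by
    rw [hkR]; push_cast; ring
  rw [e, abs_mul]
  have h0 : (0 : ℝ) ≤ 2 * H * ρ := by positivity
  calc |(k : ℝ)| * |(N : ℝ) * α - ((b₂ : ℝ) * n₁ - b₁ * n₂)| ≤ |(k : ℝ)| * (2 * H * ρ) :=
        mul_le_mul_of_nonneg_left hmain (abs_nonneg _)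
    _ ≤ MH H * (2 * H * ρ) := mul_le_mul_of_nonneg_right hkabs h0
    _ = MH H * (2 * H) * ρ := by ring

end Pool.Agent.OM
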